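import Pool.Agent.Lib.MP_646b81.Prim
import Pool.Agent.Lib.MP_646b81.NonVac

namespace Pool.Agent.Results.MP_646b81_lc.OracleBarrier

open Pool.Agent.Lib.MP_646b81

/-- There is an oracle `A` and a primitive recursive family of `Π₁(α)` axioms true in `(ℕ, A)`
which together with `¬exp` implies the whole collection scheme `BΣ₁(α)`, while `¬exp` is
consistent with all `Π₁(α)` sentences true in `(ℕ, A)`. -/
theorem result : ∃ A : Set ℕ, (∃ E : Fm, DefinesExp A E) ∧ ∀ E : Fm, DefinesExp A E →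
    ∃ Ax : Fm → Fm, (∃ g : ℕ → ℕ, Primrec g ∧ ∀ φ : Fm, g φ.code = (Ax φ).code) ∧
      (∀ (φ : Fm) (v : ℕ → ℕ), (Ax φ).holds (natStr A) v) ∧
      (∃ (M : Type) (S : Str M), Pi1Sound A S ∧ ¬ExpTotal S E) ∧
      ∀ (M : Type) (S : Str M), (∀ (φ : Fm) (v : ℕ → M), (Ax φ).holds S v) →
        ¬ExpTotal S E → BSigma1 S :=
  ⟨theA, exists_definesExp, fun E hE => ⟨AxF E, pn_AxF E, AxF_true hE,
    exists_model_not_exp theA E hE, fun _ _ hS hn => collection_of_ax hS hn⟩⟩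

end Pool.Agent.Results.MP_646b81_lc.OracleBarrier
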